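import Mathlib

/-!
Derivations of free Lie algebras with prescribed values on the generators.
-/

noncomputable section

namespace Q8.FreeConst

/-- dual numbers over a Lie algebra -/
def DL (L : Type*) := L × L

section
variable {L : Type*} [LieRing L]

instance : AddCommGroup (DL L) := (inferInstance : AddCommGroup (L × L))

instance : LieRing (DL L) where
  bracket p q := (⁅p.1, q.1⁆, ⁅p.1, q.2⁆ + ⁅p.2, q.1⁆)
  add_lie p q r := by
    apply Prod.ext
    · exact add_lie _ _ _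
    · change ⁅p.1 + q.1, r.2⁆ + ⁅p.2 + q.2, r.1⁆ =
        (⁅p.1, r.2⁆ + ⁅p.2, r.1⁆) + (⁅q.1, r.2⁆ + ⁅q.2, r.1⁆)
      rw [add_lie, add_lie]; abel
  lie_add p q r := by
    apply Prod.ext
    · exact lie_add _ _ _
    · change ⁅p.1, q.2 + r.2⁆ + ⁅p.2, q.1 + r.1⁆ =
        (⁅p.1, q.2⁆ + ⁅p.2, q.1⁆) + (⁅p.1, r.2⁆ + ⁅p.2, r.1⁆)
      rw [lie_add, lie_add]; abel
  lie_self p := by
    apply Prod.ext
    · exact lie_self _
    · change ⁅p.1, p.2⁆ + ⁅p.2, p.1⁆ = 0
      rw [← lie_skew, neg_add_cancel]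
  leibniz_lie p q r := by
    apply Prod.ext
    · exact leibniz_lie _ _ _
    · change ⁅p.1, ⁅q.1, r.2⁆ + ⁅q.2, r.1⁆⁆ + ⁅p.2, ⁅q.1, r.1⁆⁆ =
        (⁅⁅p.1, q.1⁆, r.2⁆ + ⁅⁅p.1, q.2⁆ + ⁅p.2, q.1⁆, r.1⁆) +
        (⁅q.1, ⁅p.1, r.2⁆ + ⁅p.2, r.1⁆⁆ + ⁅q.2, ⁅p.1, r.1⁆⁆)
      rw [lie_add, lie_add, add_lie, leibniz_lie p.1 q.1 r.2, leibniz_lie p.1 q.2 r.1,
        leibniz_lie p.2 q.1 r.1]
      abel

end

section
variable {K L : Type*} [CommRing K] [LieRing L] [LieAlgebra K L]

instance : Module K (DL L) := (inferInstance : Module K (L × L))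

instance : LieAlgebra K (DL L) where
  lie_smul t p q := by
    apply Prod.ext
    · exact lie_smul _ _ _
    · change ⁅p.1, t • q.2⁆ + ⁅p.2, t • q.1⁆ = t • (⁅p.1, q.2⁆ + ⁅p.2, q.1⁆)
      rw [lie_smul, lie_smul, smul_add]

/-- first component -/
def fstHom : DL L →ₗ⁅K⁆ L where
  toFun p := p.1
  map_add' _ _ := rfl
  map_smul' _ _ := rfl
  map_lie' := rfl

variable (K) {X : Type*}

/-- the homomorphism defining the derivation -/
def derHom (a : X → FreeLieAlgebra K X) : FreeLieAlgebra K X →ₗ⁅K⁆ DL (FreeLieAlgebra K X) :=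
  FreeLieAlgebra.lift K (fun i => ((FreeLieAlgebra.of K i, a i) :
    FreeLieAlgebra K X × FreeLieAlgebra K X))

lemma derHom_fst (a : X → FreeLieAlgebra K X) (u : FreeLieAlgebra K X) : (derHom K a u).1 = u := by
  have h : (fstHom (K := K) (L := FreeLieAlgebra K X)).comp (derHom K a) = LieHom.id := by
    apply FreeLieAlgebra.hom_ext
    intro i
    change (derHom K a (FreeLieAlgebra.of K i)).1 = FreeLieAlgebra.of K i
    rw [derHom, FreeLieAlgebra.lift_of_apply]
  exact congrArg (fun F => F u) h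

/-- The derivation with prescribed values on the generators. -/
def der (a : X → FreeLieAlgebra K X) :
    LieDerivation K (FreeLieAlgebra K X) (FreeLieAlgebra K X) where
  toFun u := (derHom K a u).2
  map_add' u v := by rw [map_add]; rfl
  map_smul' r u := by rw [map_smul]; rfl
  leibniz' u v := by
    change (derHom K a ⁅u, v⁆).2 = ⁅u, (derHom K a v).2⁆ - ⁅v, (derHom K a u).2⁆
    rw [LieHom.map_lie]
    change ⁅(derHom K a u).1, (derHom K a v).2⁆ + ⁅(derHom K a u).2, (derHom K a v).1⁆ = _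
    rw [derHom_fst, derHom_fst, ← lie_skew v (derHom K a u).2, sub_neg_eq_add]

lemma der_of (a : X → FreeLieAlgebra K X) (i : X) : der K a (FreeLieAlgebra.of K i) = a i := by
  change (derHom K a (FreeLieAlgebra.of K i)).2 = a i
  rw [derHom, FreeLieAlgebra.lift_of_apply]

/-- A free Lie algebra is generated by its generators. -/
lemma lieSpan_of : LieSubalgebra.lieSpan K (FreeLieAlgebra K X) (Set.range (FreeLieAlgebra.of K)) =
    ⊤ := by
  set S := LieSubalgebra.lieSpan K (FreeLieAlgebra K X) (Set.range (FreeLieAlgebra.of K)) with hS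
  let F : FreeLieAlgebra K X →ₗ⁅K⁆ S := FreeLieAlgebra.lift K (fun i =>
    ⟨FreeLieAlgebra.of K i, LieSubalgebra.subset_lieSpan ⟨i, rfl⟩⟩)
  have h : S.incl.comp F = LieHom.id := by
    apply FreeLieAlgebra.hom_ext
    intro i
    change ((F (FreeLieAlgebra.of K i) : S) : FreeLieAlgebra K X) = FreeLieAlgebra.of K i
    rw [FreeLieAlgebra.lift_of_apply]
  rw [eq_top_iff]
  intro u _
  have h1 : ((F u : S) : FreeLieAlgebra K X) = u := congrArg (fun F => F u) h
  rw [← h1]
  exact (F u).2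

/-- Two derivations of a free Lie algebra agreeing on the generators are equal. -/
lemma der_ext {D D' : LieDerivation K (FreeLieAlgebra K X) (FreeLieAlgebra K X)}
    (h : ∀ i, D (FreeLieAlgebra.of K i) = D' (FreeLieAlgebra.of K i)) : D = D' := by
  apply LieDerivation.ext_of_lieSpan_eq_top _ (lieSpan_of K (X := X))
  rintro _ ⟨i, rfl⟩
  exact h i

end

end Q8.FreeConst
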