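import Pool.Agent.Q8.FreeConst.Der

/-!
Constants of the Weitzenböck derivation of the free Lie algebra of rank two.
-/

noncomputable section

namespace Q8.FreeConst

/-! ### The `sl₂` lemma -/

section sl2
variable {K M : Type*} [Field K] [AddCommGroup M] [Module K M]

/-- the relations `[e,f] = h`, `[h,e] = 2e`, `[h,f] = -2f` -/
structure Sl2Rel (e f h : M →ₗ[K] M) : Prop where
  ef : ∀ v, e (f v) = f (e v) + h v
  he : ∀ v, h (e v) = e (h v) + (2 : K) • e v
  hf : ∀ v, h (f v) = f (h v) - (2 : K) • f v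

variable {e f h : M →ₗ[K] M}

lemma f_pow_apply {K M : Type*} [Field K] [AddCommGroup M] [Module K M] (f : M →ₗ[K] M) (i : ℕ)
    (v : M) : f ((f ^ i) v) = (f ^ (i + 1)) v := by
  rw [pow_succ', Module.End.mul_apply]

lemma Sl2Rel.h_pow (H : Sl2Rel e f h) {v : M} {μ : K} (hv : h v = μ • v) (i : ℕ) :
    h ((f ^ i) v) = (μ - 2 * i) • (f ^ i) v := by
  induction i with
  | zero => simpa using hv
  | succ i ih =>
    rw [pow_succ', Module.End.mul_apply, H.hf, ih, map_smul, ← sub_smul]
    congr 1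
    push_cast
    ring

lemma Sl2Rel.e_pow (H : Sl2Rel e f h) {v : M} {μ : K} (hv : h v = μ • v) (i : ℕ) :
    e ((f ^ (i + 1)) v) = (f ^ (i + 1)) (e v) + ((i + 1) * (μ - i)) • (f ^ i) v := by
  induction i with
  | zero =>
    rw [zero_add, pow_one, H.ef, hv, pow_zero, Module.End.one_apply]
    simp
  | succ i ih =>
    rw [← f_pow_apply f (i + 1), H.ef, ih, map_add, map_smul, H.h_pow hv, f_pow_apply,
      f_pow_apply, add_assoc, ← add_smul]
    congr 2
    push_cast
    ring

/-- Surjectivity of `e` onto weight vectors of positive weight. -/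
lemma Sl2Rel.exists_preimage [CharZero K] (H : Sl2Rel e f h) (S : Submodule K M)
    (hSe : ∀ v ∈ S, e v ∈ S) (hSf : ∀ v ∈ S, f v ∈ S) (N : ℕ) :
    ∀ (v : M) (μ : K) (i : ℕ), v ∈ S → h v = μ • v → (e ^ N) v = 0 →
      (∀ j : ℕ, μ - i + j ≠ 0) → ∃ w ∈ S, e w = (f ^ i) v := by
  have hpow : ∀ (i : ℕ) (v : M), v ∈ S → (f ^ i) v ∈ S := by
    intro i
    induction i with
    | zero => intro v hv; simpa using hv
    | succ i ih =>
      intro v hv
      rw [pow_succ', Module.End.mul_apply]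
      exact hSf _ (ih v hv)
  induction N with
  | zero =>
    intro v μ i _ _ hv0 _
    rw [pow_zero, Module.End.one_apply] at hv0
    exact ⟨0, zero_mem _, by rw [hv0, map_zero, map_zero]⟩
  | succ N ih =>
    intro v μ i hvS hv hN hμ
    have h1 : h (e v) = (μ + 2) • e v := by rw [H.he, hv, map_smul, ← add_smul]
    have h2 : (e ^ N) (e v) = 0 := by
      rw [← Module.End.mul_apply, ← pow_succ]; exact hN
    obtain ⟨w', hw'S, hw'⟩ := ih (e v) (μ + 2) (i + 1) (hSe v hvS) h1 h2 (by
      intro j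
      have := hμ (j + 1)
      push_cast at this ⊢
      intro h0
      apply this
      rw [← h0]; ring)
    have hc : ((i : K) + 1) * (μ - i) ≠ 0 := by
      apply mul_ne_zero
      · exact_mod_cast Nat.succ_ne_zero i
      · simpa using hμ 0
    refine ⟨(((i : K) + 1) * (μ - i))⁻¹ • ((f ^ (i + 1)) v - w'), ?_, ?_⟩
    · exact S.smul_mem _ (S.sub_mem (hpow _ _ hvS) hw'S)
    · rw [map_smul, map_sub, hw', H.e_pow hv, add_sub_cancel_left, smul_smul,
        inv_mul_cancel₀ hc, one_smul]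

/-- A vector killed by `e` of negative integral weight vanishes if `f` is locally nilpotent. -/
lemma Sl2Rel.eq_zero [CharZero K] (H : Sl2Rel e f h) {c : M} {m : ℤ} (hc : h c = (m : K) • c)
    (he : e c = 0) (hm : m < 0) (N : ℕ) (hN : (f ^ N) c = 0) : c = 0 := by
  induction N with
  | zero => simpa using hN
  | succ N ih =>
    apply ih
    have h1 := H.e_pow hc N
    rw [hN, map_zero, he, map_zero, zero_add] at h1
    have h2 : ((N : K) + 1) * ((m : K) - N) ≠ 0 := by
      apply mul_ne_zero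
      · exact_mod_cast Nat.succ_ne_zero N
      · have : m - (N : ℤ) ≠ 0 := by omega
        exact_mod_cast this
    exact (smul_eq_zero.1 h1.symm).resolve_left h2

end sl2

/-! ### The free Lie algebra -/

section free
variable (K : Type*) [Field K]

/-- the free Lie algebra of rank two -/
abbrev F2 := FreeLieAlgebra K (Fin 2)

/-- the generator `x` -/
def x : F2 K := FreeLieAlgebra.of K 0
/-- the generator `y` -/
def y : F2 K := FreeLieAlgebra.of K 1

/-- The derivation `ε`: `x ↦ y`, `y ↦ 0`. -/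
def eps : LieDerivation K (F2 K) (F2 K) := der K ![y K, 0]
/-- The derivation `h`: `x ↦ x`, `y ↦ -y`. -/
def hh : LieDerivation K (F2 K) (F2 K) := der K ![x K, - y K]

lemma eps_x : eps K (x K) = y K := der_of K _ 0
lemma eps_y : eps K (y K) = 0 := der_of K _ 1
lemma hh_x : hh K (x K) = x K := der_of K _ 0
lemma hh_y : hh K (y K) = - y K := der_of K _ 1

variable {K}
variable (δ : LieDerivation K (F2 K) (F2 K))

lemma sl2Rel (hx : δ (x K) = 0) (hy : δ (y K) = x K) :
    Sl2Rel (δ : F2 K →ₗ[K] F2 K) (eps K : F2 K →ₗ[K] F2 K) (hh K : F2 K →ₗ[K] F2 K) where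
  ef v := by
    have h1 : ⁅δ, eps K⁆ = hh K := by
      apply der_ext
      intro i
      fin_cases i
      · change ⁅δ, eps K⁆ (x K) = hh K (x K)
        rw [LieDerivation.commutator_apply, eps_x, hx, hh_x, hy, map_zero, sub_zero]
      · change ⁅δ, eps K⁆ (y K) = hh K (y K)
        rw [LieDerivation.commutator_apply, eps_y, hy, hh_y, eps_x, map_zero, zero_sub]
    have h2 : ⁅δ, eps K⁆ v = hh K v := by rw [h1]
    rw [LieDerivation.commutator_apply] at h2
    change δ (eps K v) = eps K (δ v) + hh K v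
    rw [← h2]; abel
  he v := by
    have h1 : ⁅hh K, δ⁆ = (2 : K) • δ := by
      apply der_ext
      intro i
      fin_cases i
      · change ⁅hh K, δ⁆ (x K) = ((2 : K) • δ) (x K)
        rw [LieDerivation.commutator_apply, LieDerivation.smul_apply, hh_x, hx, map_zero,
          smul_zero, sub_zero]
      · change ⁅hh K, δ⁆ (y K) = ((2 : K) • δ) (y K)
        rw [LieDerivation.commutator_apply, LieDerivation.smul_apply, hh_y, map_neg, hy, hh_x,
          sub_neg_eq_add, two_smul]
    have h2 : ⁅hh K, δ⁆ v = ((2 : K) • δ) v := by rw [h1]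
    rw [LieDerivation.commutator_apply, LieDerivation.smul_apply] at h2
    change hh K (δ v) = δ (hh K v) + (2 : K) • δ v
    rw [← h2]; abel
  hf v := by
    have h1 : ⁅hh K, eps K⁆ = (-2 : K) • eps K := by
      apply der_ext
      intro i
      fin_cases i
      · change ⁅hh K, eps K⁆ (x K) = ((-2 : K) • eps K) (x K)
        rw [LieDerivation.commutator_apply, LieDerivation.smul_apply, hh_x, eps_x, hh_y,
          neg_smul, two_smul]
        abel
      · change ⁅hh K, eps K⁆ (y K) = ((-2 : K) • eps K) (y K)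
        rw [LieDerivation.commutator_apply, LieDerivation.smul_apply, hh_y, map_neg, eps_y,
          map_zero, neg_zero, sub_zero, smul_zero]
    have h2 : ⁅hh K, eps K⁆ v = ((-2 : K) • eps K) v := by rw [h1]
    rw [LieDerivation.commutator_apply, LieDerivation.smul_apply] at h2
    change hh K (eps K v) = eps K (hh K v) - (2 : K) • eps K v
    rw [sub_eq_add_neg, ← neg_smul, ← h2]; abel

/-- Induction principle for the free Lie algebra. -/
lemma F2_induction (S : LieSubalgebra K (F2 K)) (hx : x K ∈ S) (hy : y K ∈ S) (u : F2 K) :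
    u ∈ S := by
  have h : LieSubalgebra.lieSpan K (F2 K) (Set.range (FreeLieAlgebra.of K)) ≤ S := by
    rw [LieSubalgebra.lieSpan_le]
    rintro _ ⟨i, rfl⟩
    fin_cases i
    · exact hx
    · exact hy
  rw [lieSpan_of] at h
  exact h trivial

/-- Elements killed by a power of a derivation form a Lie subalgebra. -/
def nilSub (D : LieDerivation K (F2 K) (F2 K)) : LieSubalgebra K (F2 K) where
  carrier := {u | ∃ N, ((D : F2 K →ₗ[K] F2 K) ^ N) u = 0}
  add_mem' := by
    rintro u v ⟨N, hN⟩ ⟨M, hM⟩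
    refine ⟨N + M, ?_⟩
    have h1 : ((D : F2 K →ₗ[K] F2 K) ^ (N + M)) u = 0 := by
      rw [add_comm, pow_add, Module.End.mul_apply, hN, map_zero]
    have h2 : ((D : F2 K →ₗ[K] F2 K) ^ (N + M)) v = 0 := by
      rw [pow_add, Module.End.mul_apply, hM, map_zero]
    rw [map_add, h1, h2, add_zero]
  zero_mem' := ⟨0, by simp⟩
  smul_mem' := by
    rintro c u ⟨N, hN⟩
    exact ⟨N, by rw [map_smul, hN, smul_zero]⟩
  lie_mem' := by
    rintro u v ⟨N, hN⟩ ⟨M, hM⟩
    refine ⟨N + M, ?_⟩
    have hz : ∀ (w : F2 K) (a b : ℕ), a ≤ b → ((D : F2 K →ₗ[K] F2 K) ^ a) w = 0 →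
        (⇑D)^[b] w = 0 := by
      intro w a b hab hw
      have h1 : ((D : F2 K →ₗ[K] F2 K) ^ b) w = 0 := by
        rw [show b = (b - a) + a by omega, pow_add, Module.End.mul_apply, hw, map_zero]
      rw [Module.End.pow_apply] at h1
      exact h1
    rw [Module.End.pow_apply]
    change (⇑D)^[N + M] ⁅u, v⁆ = 0
    rw [LieDerivation.iterate_apply_lie']
    apply Finset.sum_eq_zero
    intro i hi
    rcases Nat.lt_or_ge i N with h | h
    · rw [hz v M (N + M - i) (by omega) hM, lie_zero, smul_zero]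
    · rw [hz u N i h hN, zero_lie, smul_zero]

lemma delta_nil (hx : δ (x K) = 0) (hy : δ (y K) = x K) (u : F2 K) :
    ∃ N, ((δ : F2 K →ₗ[K] F2 K) ^ N) u = 0 := by
  apply F2_induction (nilSub δ)
  · exact ⟨1, by rw [pow_one]; exact hx⟩
  · refine ⟨2, ?_⟩
    rw [pow_two, Module.End.mul_apply]
    change δ (δ (y K)) = 0
    rw [hy, hx]

lemma eps_nil (u : F2 K) : ∃ N, ((eps K : F2 K →ₗ[K] F2 K) ^ N) u = 0 := by
  apply F2_induction (nilSub (eps K))
  · refine ⟨2, ?_⟩
    rw [pow_two, Module.End.mul_apply]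
    change eps K (eps K (x K)) = 0
    rw [eps_x, eps_y]
  · exact ⟨1, by rw [pow_one]; exact eps_y K⟩

/-- weight spaces of `h` -/
def Wt (m : ℤ) : Submodule K (F2 K) :=
  Module.End.eigenspace (hh K : F2 K →ₗ[K] F2 K) (m : K)

lemma mem_Wt {m : ℤ} {u : F2 K} : u ∈ Wt m ↔ hh K u = (m : K) • u := Module.End.mem_eigenspace_iff

lemma x_mem : x K ∈ Wt (K := K) 1 := by rw [mem_Wt, hh_x]; simp
lemma y_mem : y K ∈ Wt (K := K) (-1) := by rw [mem_Wt, hh_y]; simp

lemma lie_mem_Wt {a b : ℤ} {u v : F2 K} (hu : u ∈ Wt a) (hv : v ∈ Wt b) : ⁅u, v⁆ ∈ Wt (a + b) := by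
  rw [mem_Wt] at *
  rw [LieDerivation.apply_lie_eq_add, hu, hv, lie_smul, smul_lie, ← add_smul]
  congr 1
  push_cast
  ring

lemma iSup_Wt : (⨆ m, Wt (K := K) m) = ⊤ := by
  rw [eq_top_iff]
  intro u _
  let S : LieSubalgebra K (F2 K) :=
    { (⨆ m, Wt (K := K) m) with
      lie_mem' := by
        intro u v hu hv
        change u ∈ (⨆ m, Wt (K := K) m) at hu
        change v ∈ (⨆ m, Wt (K := K) m) at hv
        change ⁅u, v⁆ ∈ (⨆ m, Wt (K := K) m)
        induction hu using Submodule.iSup_induction' with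
        | mem a u hu =>
          induction hv using Submodule.iSup_induction' with
          | mem b v hv => exact Submodule.mem_iSup_of_mem (a + b) (lie_mem_Wt hu hv)
          | zero => rw [lie_zero]; exact zero_mem _
          | add v v' _ _ h h' => rw [lie_add]; exact add_mem h h'
        | zero => rw [zero_lie]; exact zero_mem _
        | add u u' _ _ h h' => rw [add_lie]; exact add_mem h h' }
  exact F2_induction S (Submodule.mem_iSup_of_mem 1 x_mem) (Submodule.mem_iSup_of_mem (-1) y_mem) u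

variable [CharZero K]

lemma indep_Wt : iSupIndep (Wt (K := K)) := by
  have h := Module.End.eigenspaces_iSupIndep (hh K : F2 K →ₗ[K] F2 K)
  exact h.comp (f := fun m : ℤ => (m : K)) Int.cast_injective

lemma isCompl_Wt (m : ℤ) : IsCompl (Wt (K := K) m) (⨆ j ≠ m, Wt (K := K) j) := by
  refine ⟨indep_Wt m, ?_⟩
  rw [codisjoint_iff, eq_top_iff, ← iSup_Wt]
  apply iSup_le
  intro j
  by_cases hj : j = m
  · subst hj; exact le_sup_left
  · exact le_sup_of_le_right (le_iSup₂_of_le j hj le_rfl)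

/-- The projection onto the weight space of weight `m`. -/
def pr (m : ℤ) : F2 K →ₗ[K] F2 K := (Wt m).projection (⨆ j ≠ m, Wt (K := K) j) (isCompl_Wt m)

lemma pr_mem (m : ℤ) (u : F2 K) : pr m u ∈ Wt m := Submodule.projection_apply_mem _ _

lemma pr_same {m : ℤ} {u : F2 K} (hu : u ∈ Wt m) : pr m u = u :=
  Submodule.projection_apply_of_mem_left _ hu

lemma pr_ne {m j : ℤ} (hj : j ≠ m) {u : F2 K} (hu : u ∈ Wt j) : pr m u = 0 :=
  Submodule.projection_apply_of_mem_right _ (Submodule.mem_iSup_of_mem j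
    (Submodule.mem_iSup_of_mem hj hu))

/-- linear maps shifting weights commute with the projections -/
lemma pr_shift (T : F2 K →ₗ[K] F2 K) (s : ℤ) (hT : ∀ j, ∀ u ∈ Wt (K := K) j, T u ∈ Wt (j + s))
    (m : ℤ) (u : F2 K) : pr (m + s) (T u) = T (pr m u) := by
  have hu : u ∈ ⨆ m, Wt (K := K) m := by rw [iSup_Wt]; trivial
  induction hu using Submodule.iSup_induction' with
  | mem j u hu =>
    by_cases h : j = m
    · subst h
      rw [pr_same hu, pr_same (hT j u hu)]
    · rw [pr_ne h hu, map_zero, pr_ne (by omega) (hT j u hu)]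
  | zero => simp
  | add u v _ _ h h' => rw [map_add, map_add, h, h', map_add, map_add]

/-- Every element is the sum of its weight components. -/
lemma sum_pr (u : F2 K) : ∃ s : Finset ℤ, u = ∑ m ∈ s, pr m u := by
  classical
  have key : ∃ s : Finset ℤ, (∀ m ∉ s, pr m u = 0) ∧ u = ∑ m ∈ s, pr m u := by
    have hu : u ∈ ⨆ m, Wt (K := K) m := by rw [iSup_Wt]; trivial
    induction hu using Submodule.iSup_induction' with
    | mem j u hu =>
      refine ⟨{j}, ?_, ?_⟩
      · intro m hm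
        rw [Finset.mem_singleton] at hm
        exact pr_ne (fun h => hm h.symm) hu
      · rw [Finset.sum_singleton, pr_same hu]
    | zero => exact ⟨∅, by simp, by simp⟩
    | add u v _ _ h h' =>
      obtain ⟨s, hs, hs'⟩ := h
      obtain ⟨t, ht, ht'⟩ := h'
      refine ⟨s ∪ t, ?_, ?_⟩
      · intro m hm
        rw [Finset.mem_union, not_or] at hm
        rw [map_add, hs m hm.1, ht m hm.2, add_zero]
      · simp only [map_add, Finset.sum_add_distrib]
        nth_rewrite 1 [hs']
        nth_rewrite 1 [ht']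
        congr 1
        · exact Finset.sum_subset Finset.subset_union_left (fun m _ hm => hs m hm)
        · exact Finset.sum_subset Finset.subset_union_right (fun m _ hm => ht m hm)
  obtain ⟨s, _, h⟩ := key
  exact ⟨s, h⟩

omit [CharZero K] in
/-- `[L, L] ⊆ [x, L] + [y, L]` -/
lemma lie_form (u v : F2 K) : ∃ a b : F2 K, ⁅u, v⁆ = ⁅x K, a⁆ + ⁅y K, b⁆ := by
  let T : LieSubalgebra K (F2 K) :=
    { carrier := {u | ∀ v : F2 K, ∃ a b : F2 K, ⁅u, v⁆ = ⁅x K, a⁆ + ⁅y K, b⁆}
      add_mem' := by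
        intro u u' hu hu' v
        obtain ⟨a, b, h⟩ := hu v
        obtain ⟨a', b', h'⟩ := hu' v
        exact ⟨a + a', b + b', by rw [add_lie, h, h', lie_add, lie_add]; abel⟩
      zero_mem' := fun v => ⟨0, 0, by simp⟩
      smul_mem' := by
        intro c u hu v
        obtain ⟨a, b, h⟩ := hu v
        exact ⟨c • a, c • b, by rw [smul_lie, h, lie_smul, lie_smul, smul_add]⟩
      lie_mem' := by
        intro u u' hu hu' v
        obtain ⟨a, b, h⟩ := hu ⁅u', v⁆
        obtain ⟨a', b', h'⟩ := hu' ⁅u, v⁆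
        exact ⟨a - a', b - b', by rw [lie_lie, h, h', lie_sub, lie_sub]; abel⟩ }
  exact F2_induction T (fun v => ⟨v, 0, by simp⟩) (fun v => ⟨0, v, by simp⟩) u v

omit [CharZero K] in
lemma general_form (u : F2 K) : ∃ (r s : K) (a b : F2 K),
    u = r • x K + s • y K + (⁅x K, a⁆ + ⁅y K, b⁆) := by
  let T : LieSubalgebra K (F2 K) :=
    { carrier := {u | ∃ (r s : K) (a b : F2 K),
        u = r • x K + s • y K + (⁅x K, a⁆ + ⁅y K, b⁆)}
      add_mem' := by
        rintro _ _ ⟨r, s, a, b, rfl⟩ ⟨r', s', a', b', rfl⟩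
        exact ⟨r + r', s + s', a + a', b + b', by
          rw [lie_add, lie_add, add_smul, add_smul]; abel⟩
      zero_mem' := ⟨0, 0, 0, 0, by simp⟩
      smul_mem' := by
        rintro c _ ⟨r, s, a, b, rfl⟩
        exact ⟨c * r, c * s, c • a, c • b, by
          rw [lie_smul, lie_smul, smul_add, smul_add, smul_add, smul_smul, smul_smul]⟩
      lie_mem' := by
        intro u v _ _
        obtain ⟨a, b, h⟩ := lie_form u v
        exact ⟨0, 0, a, b, by rw [h]; simp⟩ }
  exact F2_induction T ⟨1, 0, 0, 0, by simp⟩ ⟨0, 1, 0, 0, by simp⟩ u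

/-- `ad x` and `ad y` as linear maps -/
def adL (w : F2 K) : F2 K →ₗ[K] F2 K := (LieAlgebra.ad K (F2 K) w : F2 K →ₗ[K] F2 K)

omit [CharZero K] in
lemma adL_apply (w v : F2 K) : adL w v = ⁅w, v⁆ := rfl

/-- homogeneous version -/
lemma weight_form {m : ℤ} {u : F2 K} (hu : u ∈ Wt m) : ∃ (r s : K) (a b : F2 K),
    a ∈ Wt (K := K) (m - 1) ∧ b ∈ Wt (K := K) (m + 1) ∧ (m ≠ 1 → r = 0) ∧ (m ≠ -1 → s = 0) ∧
    u = r • x K + s • y K + (⁅x K, a⁆ + ⁅y K, b⁆) := by
  obtain ⟨r, s, a, b, h⟩ := general_form u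
  refine ⟨if m = 1 then r else 0, if m = -1 then s else 0, pr (m - 1) a, pr (m + 1) b,
    pr_mem _ _, pr_mem _ _, fun h => if_neg h, fun h => if_neg h, ?_⟩
  have h1 : pr m u = u := pr_same hu
  have hxa : pr m ⁅x K, a⁆ = ⁅x K, pr (m - 1) a⁆ := by
    have := pr_shift (adL (x K)) 1 (fun j v hv => by
      rw [adL_apply, add_comm j 1]; exact lie_mem_Wt x_mem hv) (m - 1) a
    rw [sub_add_cancel] at this
    exact this
  have hyb : pr m ⁅y K, b⁆ = ⁅y K, pr (m + 1) b⁆ := by
    have := pr_shift (adL (y K)) (-1) (fun j v hv => by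
      rw [adL_apply, add_comm j (-1)]; exact lie_mem_Wt y_mem hv) (m + 1) b
    rw [show m + 1 + -1 = m by ring] at this
    exact this
  have hpx : pr m (x K) = if m = 1 then x K else 0 := by
    split_ifs with hm
    · subst hm; exact pr_same x_mem
    · exact pr_ne (fun h => hm h.symm) x_mem
  have hpy : pr m (y K) = if m = -1 then y K else 0 := by
    split_ifs with hm
    · subst hm; exact pr_same y_mem
    · exact pr_ne (fun h => hm h.symm) y_mem
  rw [← h1]
  conv_lhs => rw [h]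
  rw [map_add, map_add, map_smul, map_smul, map_add, hxa, hyb, hpx, hpy]
  congr 2
  · split_ifs <;> simp
  · split_ifs <;> simp

/-! ### Pairs `x ⊗ a + y ⊗ b` -/

omit [CharZero K]

/-- `e` on pairs -/
def eP (δ : LieDerivation K (F2 K) (F2 K)) : F2 K × F2 K →ₗ[K] F2 K × F2 K where
  toFun p := (δ p.1 + p.2, δ p.2)
  map_add' p q := by
    apply Prod.ext
    · change δ (p.1 + q.1) + (p.2 + q.2) = (δ p.1 + p.2) + (δ q.1 + q.2)
      rw [map_add]; abel
    · exact map_add _ _ _
  map_smul' c p := by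
    apply Prod.ext
    · change δ (c • p.1) + c • p.2 = c • (δ p.1 + p.2)
      rw [map_smul, smul_add]
    · exact map_smul _ _ _

/-- `f` on pairs -/
def fP (K : Type*) [Field K] : F2 K × F2 K →ₗ[K] F2 K × F2 K where
  toFun p := (eps K p.1, eps K p.2 + p.1)
  map_add' p q := by
    apply Prod.ext
    · exact map_add _ _ _
    · change eps K (p.2 + q.2) + (p.1 + q.1) = (eps K p.2 + p.1) + (eps K q.2 + q.1)
      rw [map_add]; abel
  map_smul' c p := by
    apply Prod.ext
    · exact map_smul _ _ _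
    · change eps K (c • p.2) + c • p.1 = c • (eps K p.2 + p.1)
      rw [map_smul, smul_add]

/-- `h` on pairs -/
def hP (K : Type*) [Field K] : F2 K × F2 K →ₗ[K] F2 K × F2 K where
  toFun p := (hh K p.1 + p.1, hh K p.2 - p.2)
  map_add' p q := by
    apply Prod.ext
    · change hh K (p.1 + q.1) + (p.1 + q.1) = (hh K p.1 + p.1) + (hh K q.1 + q.1)
      rw [map_add]; abel
    · change hh K (p.2 + q.2) - (p.2 + q.2) = (hh K p.2 - p.2) + (hh K q.2 - q.2)
      rw [map_add]; abel
  map_smul' c p := by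
    apply Prod.ext
    · change hh K (c • p.1) + c • p.1 = c • (hh K p.1 + p.1)
      rw [map_smul, smul_add]
    · change hh K (c • p.2) - c • p.2 = c • (hh K p.2 - p.2)
      rw [map_smul, smul_sub]

lemma sl2RelP (hx : δ (x K) = 0) (hy : δ (y K) = x K) : Sl2Rel (eP δ) (fP K) (hP K) := by
  have H := sl2Rel δ hx hy
  have hef : ∀ v, δ (eps K v) = eps K (δ v) + hh K v := H.ef
  have hhe : ∀ v, hh K (δ v) = δ (hh K v) + (2 : K) • δ v := H.he
  have hhf : ∀ v, hh K (eps K v) = eps K (hh K v) - (2 : K) • eps K v := H.hf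
  refine ⟨?_, ?_, ?_⟩
  · intro v
    apply Prod.ext
    · change δ (eps K v.1) + (eps K v.2 + v.1) = eps K (δ v.1 + v.2) + (hh K v.1 + v.1)
      rw [hef, map_add]; abel
    · change δ (eps K v.2 + v.1) = eps K (δ v.2) + (δ v.1 + v.2) + (hh K v.2 - v.2)
      rw [map_add, hef]; abel
  · intro v
    apply Prod.ext
    · change hh K (δ v.1 + v.2) + (δ v.1 + v.2) =
        δ (hh K v.1 + v.1) + (hh K v.2 - v.2) + (2 : K) • (δ v.1 + v.2)
      rw [map_add, hhe, map_add, smul_add, two_smul, two_smul]; abel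
    · change hh K (δ v.2) - δ v.2 = δ (hh K v.2 - v.2) + (2 : K) • δ v.2
      rw [hhe, map_sub]; abel
  · intro v
    apply Prod.ext
    · change hh K (eps K v.1) + eps K v.1 = eps K (hh K v.1 + v.1) - (2 : K) • eps K v.1
      rw [hhf, map_add]; abel
    · change hh K (eps K v.2 + v.1) - (eps K v.2 + v.1) =
        eps K (hh K v.2 - v.2) + (hh K v.1 + v.1) - (2 : K) • (eps K v.2 + v.1)
      rw [map_add, hhf, map_sub, smul_add, two_smul, two_smul]; abel

/-- the map `x ⊗ a + y ⊗ b ↦ [x,a] + [y,b]` -/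
def phi (K : Type*) [Field K] : F2 K × F2 K →ₗ[K] F2 K where
  toFun p := ⁅x K, p.1⁆ + ⁅y K, p.2⁆
  map_add' p q := by
    change ⁅x K, p.1 + q.1⁆ + ⁅y K, p.2 + q.2⁆ = _
    rw [lie_add, lie_add]; abel
  map_smul' c p := by
    change ⁅x K, c • p.1⁆ + ⁅y K, c • p.2⁆ = c • (⁅x K, p.1⁆ + ⁅y K, p.2⁆)
    rw [lie_smul, lie_smul, smul_add]

lemma phi_e (hx : δ (x K) = 0) (hy : δ (y K) = x K) (p : F2 K × F2 K) :
    phi K (eP δ p) = δ (phi K p) := by
  change ⁅x K, δ p.1 + p.2⁆ + ⁅y K, δ p.2⁆ = δ (⁅x K, p.1⁆ + ⁅y K, p.2⁆)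
  rw [map_add, LieDerivation.apply_lie_eq_add, LieDerivation.apply_lie_eq_add, hx, hy, lie_add,
    zero_lie]
  abel

lemma phi_f (p : F2 K × F2 K) : phi K (fP K p) = eps K (phi K p) := by
  change ⁅x K, eps K p.1⁆ + ⁅y K, eps K p.2 + p.1⁆ = eps K (⁅x K, p.1⁆ + ⁅y K, p.2⁆)
  rw [map_add, LieDerivation.apply_lie_eq_add, LieDerivation.apply_lie_eq_add, eps_x, eps_y,
    lie_add, zero_lie]
  abel

lemma eP_nil (hx : δ (x K) = 0) (hy : δ (y K) = x K) (p : F2 K × F2 K) :
    ∃ N, ((eP δ) ^ N) p = 0 := by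
  have hc : ∀ v, ((eP δ) : F2 K × F2 K →ₗ[K] F2 K × F2 K) (v, 0) = (δ v, 0) := by
    intro v
    apply Prod.ext
    · change δ v + 0 = δ v
      rw [add_zero]
    · exact map_zero δ
  have h1 : ∀ (N : ℕ) (v : F2 K), ((eP δ) ^ N) (v, 0) =
      (((δ : F2 K →ₗ[K] F2 K) ^ N) v, 0) := by
    intro N
    induction N with
    | zero => intro v; rfl
    | succ N ih =>
      intro v
      rw [pow_succ, Module.End.mul_apply, hc, ih, pow_succ, Module.End.mul_apply]
      rfl
  have h2 : ∀ (N : ℕ) (p : F2 K × F2 K), ∃ v, ((eP δ) ^ N) p =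
      (v, ((δ : F2 K →ₗ[K] F2 K) ^ N) p.2) := by
    intro N
    induction N with
    | zero => intro p; exact ⟨p.1, rfl⟩
    | succ N ih =>
      intro p
      obtain ⟨v, hv⟩ := ih (eP δ p)
      refine ⟨v, ?_⟩
      rw [pow_succ, Module.End.mul_apply, hv, pow_succ, Module.End.mul_apply]
      rfl
  obtain ⟨N, hN⟩ := delta_nil δ hx hy p.2
  obtain ⟨v, hv⟩ := h2 N p
  rw [hN] at hv
  obtain ⟨M, hM⟩ := delta_nil δ hx hy v
  refine ⟨M + N, ?_⟩
  rw [pow_add, Module.End.mul_apply, hv, h1, hM]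
  rfl

/-- **Key lemma.** A constant of weight `m` is a linear combination of `x` and of an element
`[x, a] - [y, δ a]` with `δ² a = 0`. -/
lemma const_form [CharZero K] (hx : δ (x K) = 0) (hy : δ (y K) = x K) {m : ℤ} {u : F2 K}
    (hu : u ∈ Wt m) (hδ : δ u = 0) : ∃ (r : K) (a : F2 K), δ (δ a) = 0 ∧
      u = r • x K + (⁅x K, a⁆ - ⁅y K, δ a⁆) := by
  have H := sl2Rel δ hx hy
  rcases lt_or_ge m 0 with hm | hm
  · obtain ⟨N, hN⟩ := eps_nil u
    have h0 : u = 0 := H.eq_zero (c := u) (m := m) (mem_Wt.1 hu) hδ hm N hN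
    exact ⟨0, 0, by simp, by rw [h0]; simp⟩
  · obtain ⟨r, s, a, b, ha, hb, _, hs, h⟩ := weight_form hu
    rw [hs (by omega), zero_smul, add_zero] at h
    have hδ' : δ (phi K (a, b)) = 0 := by
      have h1 : phi K (a, b) = u - r • x K := by rw [h, add_sub_cancel_left]; rfl
      rw [h1, map_sub, hδ, map_smul, hx, smul_zero, sub_zero]
    have hk : eP δ (a, b) ∈ LinearMap.ker (phi K) := by
      rw [LinearMap.mem_ker, phi_e δ hx hy, hδ']
    have hw : hP K (eP δ (a, b)) = ((m : K) + 2) • eP δ (a, b) := by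
      have h2 : hP K (a, b) = (m : K) • (a, b) := by
        apply Prod.ext
        · change hh K a + a = (m : K) • a
          rw [mem_Wt.1 ha]
          push_cast
          rw [sub_smul, one_smul, sub_add_cancel]
        · change hh K b - b = (m : K) • b
          rw [mem_Wt.1 hb]
          push_cast
          rw [add_smul, one_smul, add_sub_cancel_right]
      rw [(sl2RelP δ hx hy).he, h2, map_smul, ← add_smul]
    obtain ⟨N, hN⟩ := eP_nil δ hx hy (eP δ (a, b))
    obtain ⟨w, hwS, hw'⟩ := (sl2RelP δ hx hy).exists_preimage (LinearMap.ker (phi K))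
      (fun v hv => by rw [LinearMap.mem_ker] at *; rw [phi_e δ hx hy, hv, map_zero])
      (fun v hv => by rw [LinearMap.mem_ker] at *; rw [phi_f, hv, map_zero]) N
      (eP δ (a, b)) ((m : K) + 2) 0 hk hw hN (by
        intro j
        have : m + 2 + (j : ℤ) ≠ 0 := by omega
        simp only [Nat.cast_zero, sub_zero]
        exact_mod_cast this)
    rw [pow_zero, Module.End.one_apply] at hw'
    rw [LinearMap.mem_ker] at hwS
    -- the corrected pair
    have h3 : eP δ ((a, b) - w) = 0 := by rw [map_sub, hw', sub_self]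
    have h4 : δ ((a, b) - w).1 + ((a, b) - w).2 = 0 := congrArg Prod.fst h3
    have h5 : δ ((a, b) - w).2 = 0 := congrArg Prod.snd h3
    have h6 : ((a, b) - w).2 = - δ ((a, b) - w).1 := (neg_eq_of_add_eq_zero_right h4).symm
    have h7 : phi K ((a, b) - w) = phi K (a, b) := by rw [map_sub, hwS, sub_zero]
    refine ⟨r, ((a, b) - w).1, ?_, ?_⟩
    · rw [h6, map_neg, neg_eq_zero] at h5
      exact h5
    · rw [h]
      congr 1
      change phi K (a, b) = _
      rw [← h7]
      change ⁅x K, ((a, b) - w).1⁆ + ⁅y K, ((a, b) - w).2⁆ = _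
      rw [h6, lie_neg, ← sub_eq_add_neg]

end free

end Q8.FreeConst
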